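import Pool.Agent.H19M.Stm2

/-!
# H19M, pieces FG0 and FG1 (helper33)
-/

set_option autoImplicit false

open Filter Topology Pool.Agent.N709.UM Pool.Agent.H19M

universe u v

namespace Pool.Agent.H33P.H19MFG

section step

variable {H : Type u} [Group H] {ρ : H → ℝ}

/-- one step of the bootstrapping -/
theorem step (hρ : PN ρ) {N : Subgroup H} (hN : ∀ z ∈ N, ∀ g : H, z * g = g * z)
    {χ : N →* ℂ} {s : ℝ} (hnrm : ∀ w, ‖χ w‖ = 1)
    (hsml : ∀ w : N, ρ (w : H) < 4 * s → ‖χ w - 1‖ ≤ 1 / 20) (a b : N) (y : H)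
    (ha : ρ ((a : H)⁻¹ * y) < s) (hb : ρ ((b : H)⁻¹ * y ^ 2) < s) (ha2 : ‖χ a - 1‖ ≤ 1 / 2) :
    ‖χ a - 1‖ ≤ 2 / 3 * (‖χ b - 1‖ + 1 / 20) := by
  have hs : 0 < s := by
    have h1 := hρ.mul ((a : H)⁻¹ * y) ((a : H)⁻¹ * y)⁻¹
    rw [mul_inv_cancel, hρ.one, hρ.inv] at h1
    linarith
  have e1 : ((b⁻¹ * a ^ 2 : N) : H) = ((b : H)⁻¹ * y ^ 2) * (((a : H)⁻¹ * y)⁻¹ * ((a : H)⁻¹ * y)⁻¹) := by
    have hc := hN a a.2 y
    have h2 : ((a : H)⁻¹ * y)⁻¹ = (a : H) * y⁻¹ := by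
      rw [mul_inv_rev, inv_inv]
      have := hN a a.2 y⁻¹
      exact this.symm
    rw [h2]
    push_cast
    have h3 : (a : H) * y⁻¹ = y⁻¹ * a := hN a a.2 y⁻¹
    calc (b : H)⁻¹ * (a : H) ^ 2 = (b : H)⁻¹ * (y * (y * (y⁻¹ * (y⁻¹ * ((a : H) * a))))) := by
          rw [mul_inv_cancel_left, mul_inv_cancel_left, pow_two]
      _ = (b : H)⁻¹ * y ^ 2 * (((a : H) * y⁻¹) * ((a : H) * y⁻¹)) := by
          rw [h3]
          have h4 : y⁻¹ * (a : H) * (y⁻¹ * a) = y⁻¹ * (y⁻¹ * ((a : H) * a)) := by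
            rw [mul_assoc, ← mul_assoc (a : H) y⁻¹ a, h3]
            group
          rw [h4]
          group
  have h1 : ρ ((b⁻¹ * a ^ 2 : N) : H) < 4 * s := by
    rw [e1]
    have h2 := hρ.mul ((b : H)⁻¹ * y ^ 2) (((a : H)⁻¹ * y)⁻¹ * ((a : H)⁻¹ * y)⁻¹)
    have h3 := hρ.mul ((a : H)⁻¹ * y)⁻¹ ((a : H)⁻¹ * y)⁻¹
    rw [hρ.inv] at h3
    linarith
  have h2 := hsml _ h1
  have h3 : χ a ^ 2 - χ b = χ b * (χ (b⁻¹ * a ^ 2) - 1) := by
    have h4 : χ b * χ (b⁻¹ * a ^ 2) = χ a ^ 2 := by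
      rw [← map_mul, ← map_pow, mul_inv_cancel_left]
    rw [mul_sub, h4, mul_one]
  have h5 : ‖χ a ^ 2 - χ b‖ ≤ 1 / 20 := by
    rw [h3, norm_mul, hnrm, one_mul]
    exact h2
  have h6 : ‖χ a ^ 2 - 1‖ ≤ ‖χ b - 1‖ + 1 / 20 := by
    have h7 : χ a ^ 2 - 1 = (χ a ^ 2 - χ b) + (χ b - 1) := by ring
    rw [h7]
    have := norm_add_le (χ a ^ 2 - χ b) (χ b - 1)
    linarith
  have h7 : ‖χ a ^ 2 - 1‖ = ‖χ a - 1‖ * ‖χ a + 1‖ := by
    rw [← norm_mul]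
    congr 1
    ring
  have h8 : 3 / 2 ≤ ‖χ a + 1‖ := by
    have h9 : (2 : ℂ) = (χ a + 1) - (χ a - 1) := by ring
    have h10 : ‖(2 : ℂ)‖ ≤ ‖χ a + 1‖ + ‖χ a - 1‖ := by
      rw [h9]
      exact norm_sub_le _ _
    have h11 : ‖(2 : ℂ)‖ = 2 := by norm_num
    linarith
  have h9 : 0 ≤ ‖χ a - 1‖ := norm_nonneg _
  nlinarith

end step

theorem t_FG0 : S_FG0.{u} := by
  intro H _ ρ hρ F N hN χ κ s hCh c x h2 h4 h8 w hw hw2
  obtain ⟨w1, hw1, hx1⟩ := h2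
  obtain ⟨w2, hw2', hx2⟩ := h4
  obtain ⟨w3, hw3, hx3⟩ := h8
  have e1 : x ^ (2 * c * κ) = (x ^ (c * κ)) ^ 2 := by
    rw [← zpow_natCast, ← zpow_mul]
    congr 1
    push_cast
    ring
  have e2 : x ^ (4 * c * κ) = (x ^ (2 * c * κ)) ^ 2 := by
    rw [← zpow_natCast, ← zpow_mul]
    congr 1
    push_cast
    ring
  have e3 : x ^ (8 * c * κ) = (x ^ (4 * c * κ)) ^ 2 := by
    rw [← zpow_natCast, ← zpow_mul]
    congr 1
    push_cast
    ring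
  have s2 := step hρ hN hCh.nrm hCh.sml w2 w3 _ hw2' (by rw [← e3]; exact hw3) hx2
  have s1 := step hρ hN hCh.nrm hCh.sml w1 w2 _ hw1 (by rw [← e2]; exact hw2') hx1
  have s0 := step hρ hN hCh.nrm hCh.sml w w1 _ hw (by rw [← e1]; exact hw1) hw2
  linarith

/-- the core of the multiplication property -/
theorem core (hPWZ : S_PWZ.{u}) (h0 : S_FG0.{u}) (H : Type u) [Group H] [TopologicalSpace H]
    [IsTopologicalGroup H] (ρ : H → ℝ) (hG : Gen ρ) (F : Filter H) (hF : Deep ρ F)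
    (N : Subgroup H) (hN : ∀ z ∈ N, ∀ g, z * g = g * z) (χ : N →* ℂ) (κ : ℤ) (s : ℝ)
    (hCh : Ch ρ F N χ κ s) (c : ℤ) (G : Filter H) (hGF : G ≤ F)
    (hW : ∀ c, Wc ρ N χ κ s c ∈ G) : ∀ᶠ x in G, ∀ᶠ y in G, x * y ∈ Wc ρ N χ κ s c := by
  have hρ := hG.pn
  have a1 : ∀ᶠ z in F, ∃ w : N, ρ ((w : H)⁻¹ * (z ^ c) ^ κ) < s := hF.pow c _ hCh.apx
  have a2 := hGF (hF.mul _ a1)
  filter_upwards [a2, hW c, hW (2 * c), hW (4 * c), hW (8 * c)] with x x1 x2 x3 x4 x5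
  have a3 := hPWZ H ρ hG F hF x (c * κ) s hCh.pos
  filter_upwards [hGF x1, hGF a3, hW c, hW (2 * c), hW (4 * c), hW (8 * c)] with y y1 y0 y2 y3 y4 y5
  obtain ⟨w, hw, hw'⟩ := x2
  have hw2 := h0 H ρ hρ F N hN χ κ s hCh c x x3 x4 x5 w hw hw'
  obtain ⟨v, hv, hv'⟩ := y2
  have hv2 := h0 H ρ hρ F N hN χ κ s hCh c y y3 y4 y5 v hv hv'
  obtain ⟨t, ht⟩ := y1
  have ht' : ρ ((t : H)⁻¹ * (x * y) ^ (c * κ)) < s := by
    rw [zpow_mul]
    exact ht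
  refine ⟨t, ht', ?_⟩
  obtain ⟨α, hα⟩ : ∃ α, α = (w : H)⁻¹ * x ^ (c * κ) := ⟨_, rfl⟩
  obtain ⟨β, hβ⟩ : ∃ β, β = (v : H)⁻¹ * y ^ (c * κ) := ⟨_, rfl⟩
  obtain ⟨u, hu⟩ : ∃ u, u = (x * y) ^ (c * κ) * (x ^ (c * κ) * y ^ (c * κ))⁻¹ := ⟨_, rfl⟩
  have hu1 : ρ u < s := by rw [hu]; exact y0.1
  rw [← hα] at hw
  rw [← hβ] at hv
  have ex : x ^ (c * κ) = (w : H) * α := by rw [hα, mul_inv_cancel_left]
  have ey : y ^ (c * κ) = (v : H) * β := by rw [hβ, mul_inv_cancel_left]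
  have exy : (x * y) ^ (c * κ) = ((w : H) * v) * (u * (α * β)) := by
    have h1 : (x * y) ^ (c * κ) = u * (x ^ (c * κ) * y ^ (c * κ)) := by
      rw [hu, inv_mul_cancel_right]
    rw [h1, ex, ey]
    have c1 : (v : H) * α = α * v := hN v v.2 α
    have c2 : ((w : H) * v) * u = u * (w * v) := by
      have := hN (w * v : N) (w * v : N).2 u
      push_cast at this
      exact this
    calc u * ((w : H) * α * (v * β)) = u * (w * (α * v) * β) := by group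
      _ = u * (w * (v * α) * β) := by rw [c1]
      _ = u * (w * v) * (α * β) := by group
      _ = (w * v) * u * (α * β) := by rw [c2]
      _ = ((w : H) * v) * (u * (α * β)) := by group
  have e1 : ((t⁻¹ * (w * v) : N) : H) = ((t : H)⁻¹ * (x * y) ^ (c * κ)) * (u * (α * β))⁻¹ := by
    rw [exy]
    push_cast
    group
  have h1 : ρ ((t⁻¹ * (w * v) : N) : H) < 4 * s := by
    rw [e1]
    have h2 := hρ.mul ((t : H)⁻¹ * (x * y) ^ (c * κ)) (u * (α * β))⁻¹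
    have h3 := hρ.inv (u * (α * β))
    have h4 := hρ.mul u (α * β)
    have h5 := hρ.mul α β
    linarith
  have h2 := hCh.sml _ h1
  have h3 : χ (w * v) - χ t = χ t * (χ (t⁻¹ * (w * v)) - 1) := by
    have h4 : χ t * χ (t⁻¹ * (w * v)) = χ (w * v) := by
      rw [← map_mul, mul_inv_cancel_left]
    rw [mul_sub, h4, mul_one]
  have h4 : ‖χ (w * v) - χ t‖ ≤ 1 / 20 := by
    rw [h3, norm_mul, hCh.nrm, one_mul]
    exact h2
  have h5 : ‖χ (w * v) - 1‖ ≤ 22 / 100 + 22 / 100 := by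
    have h6 : χ (w * v) - 1 = χ w * (χ v - 1) + (χ w - 1) := by
      rw [map_mul]
      ring
    rw [h6]
    have h7 := norm_add_le (χ w * (χ v - 1)) (χ w - 1)
    rw [norm_mul, hCh.nrm, one_mul] at h7
    linarith
  have h6 : χ t - 1 = (χ (w * v) - 1) - (χ (w * v) - χ t) := by ring
  rw [h6]
  have h7 := norm_sub_le (χ (w * v) - 1) (χ (w * v) - χ t)
  linarith

theorem t_FG1 (hPWZ : S_PWZ.{u}) (h0 : S_FG0.{u}) : S_FG1.{u} := by
  intro H _ _ _ ρ hG F hF N hN ι χ κ s hCh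
  have hρ := hG.pn
  have hle : FG ρ F N χ κ s ≤ F := inf_le_left
  have hW : ∀ i c, Wc ρ N (χ i) (κ i) (s i) c ∈ FG ρ F N χ κ s := by
    intro i c
    have h1 : FG ρ F N χ κ s ≤ 𝓟 (Wc ρ N (χ i) (κ i) (s i) c) :=
      inf_le_right.trans ((iInf_le _ i).trans (iInf_le _ c))
    exact le_principal_iff.1 h1
  refine ⟨?_, ?_, ?_, ?_, ?_⟩
  · have h1 : pure (1 : H) ≤ FG ρ F N χ κ s := by
      refine le_inf (fun A hA => hF.one A hA) (le_iInf fun i => le_iInf fun c => ?_)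
      rw [le_principal_iff, mem_pure]
      refine ⟨1, ?_, ?_⟩
      · rw [one_zpow, OneMemClass.coe_one, inv_one, one_mul, hρ.one]
        exact (hCh i).pos
      · rw [map_one, sub_self, norm_zero]
        norm_num
    intro A hA
    exact h1 hA
  · exact fun t ht => hle (hF.inv t ht)
  · exact fun t ht c => hle (hF.com t ht c)
  · have h1 : (FG ρ F N χ κ s).bind (fun x => map (fun y => x * y) (FG ρ F N χ κ s)) ≤
        FG ρ F N χ κ s := by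
      refine le_inf (fun A hA => ?_) (le_iInf fun i => le_iInf fun c => ?_)
      · rw [mem_bind']
        have h2 := hle (hF.mul A hA)
        filter_upwards [h2] with x hx
        exact hle hx
      · rw [le_principal_iff, mem_bind']
        exact core hPWZ h0 H ρ hG F hF N hN (χ i) (κ i) (s i) (hCh i) c _ hle (hW i)
    intro A hA
    exact mem_bind'.1 (h1 hA)
  · intro d
    have h1 : map (fun x : H => x ^ d) (FG ρ F N χ κ s) ≤ FG ρ F N χ κ s := by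
      refine le_inf (fun A hA => ?_) (le_iInf fun i => le_iInf fun c => ?_)
      · exact hle (hF.pow d A hA)
      · rw [le_principal_iff, mem_map]
        filter_upwards [hW i (d * c)] with x hx
        obtain ⟨w, hw, hw'⟩ := hx
        refine ⟨w, ?_, hw'⟩
        rw [← zpow_mul, ← mul_assoc]
        exact hw
    intro A hA
    exact h1 hA

end Pool.Agent.H33P.H19MFG
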